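import Pool.Agent.Helper40.PoolM.Final

/-!
# The critical Pool model does not grow linearly

`radius X T ν ω t` is the radius `𝓔_t` of the Pool model driven by the initial positions `X i` and
the walks with waiting times `T i n` and steps `ν i n`; `IsEnvironment P 1 X T ν` says that the
positions form a Poisson process of intensity one on the plane and that the walks are independent
rate one continuous time walks with standard Gaussian steps.

Mass balance: `π 𝓔_t² = 1 + #absorbed ≥ 1 + N_t(𝓔_t)`, where `N_t(r)` is the number of freely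
moving particles in the disc of radius `r` at time `t`, a Poisson process of intensity one. On each
window `[a t, b t]` the centred count `N_t(r) - π r²` is positive throughout with probability
bounded below, which forces `𝓔_t` out of the window.
-/

set_option autoImplicit false

open MeasureTheory ProbabilityTheory Filter
open scoped ENNReal NNReal Topology

namespace Pool.Agent.Results.MP_853d78_pr.NoLinearGrowth

open Pool.Agent.Helper40.PoolM

/-- For the Pool model at the critical intensity `λ = 1`, almost surely: for all `0 < a` and `b`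
there are arbitrarily large times `t` with `𝓔_t ∉ [a t, b t]`, and hence `𝓔_t / t` does not
converge to any `ξ ∈ (0, ∞)`. -/
theorem result {Ω : Type*} [MeasurableSpace Ω] (P : Measure Ω) [IsProbabilityMeasure P]
    (X : ℕ → Ω → Plane) (T : ℕ → ℕ → Ω → ℝ) (ν : ℕ → ℕ → Ω → Plane)
    (h : IsEnvironment P 1 X T ν) :
    ∀ᵐ ω ∂P,
      (∀ a b : ℝ≥0, 0 < a → ∃ᶠ t : ℝ≥0 in atTop,
        ¬ ((a : ℝ≥0∞) * t ≤ radius X T ν ω t ∧ radius X T ν ω t ≤ (b : ℝ≥0∞) * t)) ∧
      (∀ ξ : ℝ≥0, 0 < ξ →
        ¬ Tendsto (fun t : ℝ≥0 => radius X T ν ω t / t) atTop (𝓝 (ξ : ℝ≥0∞))) := by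
  filter_upwards [no_linear_growth h] with ω hω
  exact ⟨hω, fun ξ hξ => no_limit_of hω ξ hξ⟩

end Pool.Agent.Results.MP_853d78_pr.NoLinearGrowth
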